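import Pool.Agent.R737.PK.Stm

set_option autoImplicit false

open Polynomial

namespace Pool.Agent.R569.PKC

open Pool.Agent.R737.PK

noncomputable def q : ℕ → ℝ[X]
  | 0 => X
  | 1 => C (1 / 6) * (X * (X - 2) * (X + 5))
  | 2 => C (1 / 30) * (X * (X - 2) * (X - 4) * (X ^ 2 + 6 * X + 13))
  | 3 => C (1 / 2520) * (X * (X - 2) * (X - 4) * (X - 6) *
      (17 * X ^ 3 + 85 * X ^ 2 + 223 * X + 347))
  | _ => C (1 / 22680) * (X * (X - 2) * (X - 4) * (X - 6) * (X - 8) *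
      (31 * X ^ 4 + 62 * X ^ 3 + 128 * X ^ 2 + 610 * X + 897))

theorem fac (m s : ℕ) :
    (∏ i ∈ Finset.range m, (((m + s : ℕ) : ℝ) - (i : ℝ))) * (s.factorial : ℝ) =
      ((m + s).factorial : ℝ) := by
  induction m with
  | zero => simp
  | succ m ih =>
    rw [Finset.prod_range_succ']
    have h1 : ∀ i : ℕ, (((m + 1 + s : ℕ) : ℝ) - ((i + 1 : ℕ) : ℝ)) = (((m + s : ℕ) : ℝ) - (i : ℝ)) := by
      intro i; push_cast; ring
    simp only [h1]
    have h2 : m + 1 + s = (m + s) + 1 := by ring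
    rw [h2, Nat.factorial_succ]
    push_cast
    push_cast at ih
    rw [← ih]
    ring

noncomputable def A (m : ℕ) : ℝ[X] := ∏ i ∈ Finset.range m, (X - C (i : ℝ))

theorem A_eval (m : ℕ) (x : ℝ) : (A m).eval x = ∏ i ∈ Finset.range m, (x - (i : ℝ)) := by
  simp [A, eval_prod]

theorem A_aeval (m : ℕ) (z : ℂ) : aeval z (A m) = ∏ i ∈ Finset.range m, (z - (i : ℂ)) := by
  simp [A, map_prod]

theorem binX_eval (n : ℕ) (x : ℝ) :
    (binX n).eval x = (n.factorial : ℝ)⁻¹ * ∏ i ∈ Finset.range n, (x - (i : ℝ)) := by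
  simp [binX, eval_prod]

theorem stp_two (P : ℝ[X]) (j : ℕ) (x : ℝ) :
    (stp P j 2).eval x = P.eval ((j + 1 : ℕ) : ℝ) * (binX (j + 1)).eval x - 2 * P.eval x := by
  simp [stp]

/-- the step of the recursion -/
theorem step (c : ℝ) (m k : ℕ) (P : ℝ[X]) (p : ℝ → ℝ)
    (hP : ∀ x : ℝ, P.eval x = c * (A m).eval x * p (x - (m + 2))) (x : ℝ) :
    (stp P (m + 2 + 2 * k) 2).eval x = c * (A m).eval x *
      (p (2 * k + 1) / ((2 * k + 3).factorial : ℝ) *
        (∏ i ∈ Finset.range (2 * k + 3), ((x - (m + 2)) + 2 - (i : ℝ))) - 2 * p (x - (m + 2))) := by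
  have hn : m + 2 + 2 * k + 1 = m + (2 * k + 3) := by ring
  rw [stp_two, hn, binX_eval, Finset.prod_range_add, hP, hP, ← A_eval]
  have h1 : ∀ i : ℕ, (x - ((m + i : ℕ) : ℝ)) = ((x - (m + 2)) + 2 - (i : ℝ)) := by
    intro i; push_cast; ring
  simp only [h1]
  have h2 : (((m + (2 * k + 3) : ℕ) : ℝ) - (m + 2)) = 2 * k + 1 := by push_cast; ring
  rw [h2]
  have h3 := fac m (2 * k + 3)
  rw [← A_eval] at h3
  rw [← h3]
  have h4 : (A m).eval ((m + (2 * k + 3) : ℕ) : ℝ) ≠ 0 := by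
    intro h
    rw [h, zero_mul] at h3
    exact (Nat.cast_ne_zero.mpr (Nat.factorial_ne_zero _)) h3.symm
  have h5 : ((2 * k + 3).factorial : ℝ) ≠ 0 := Nat.cast_ne_zero.mpr (Nat.factorial_ne_zero _)
  field_simp

theorem lin_eval (c : ℝ) (m : ℕ) (x : ℝ) :
    (lin c (m + 2)).eval x = c * (A m).eval x * (q 0).eval (x - (m + 2)) := by
  rw [A_eval]
  simp [lin, q, eval_prod]

theorem chain_eval (c : ℝ) (m k : ℕ) (hk : k ≤ 4) (x : ℝ) :
    (chain (lin c (m + 2)) (m + 2) k).eval x = c * (A m).eval x * (q k).eval (x - (m + 2)) := by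
  have e0 := lin_eval c m
  have e1 : ∀ x : ℝ, (chain (lin c (m + 2)) (m + 2) 1).eval x =
      c * (A m).eval x * (q 1).eval (x - (m + 2)) := by
    intro x
    have := step c m 0 (chain (lin c (m + 2)) (m + 2) 0) (fun y => (q 0).eval y) e0 x
    rw [chain]
    rw [this]
    congr 1
    simp [q, Finset.prod_range_succ, Nat.factorial]
    ring
  have e2 : ∀ x : ℝ, (chain (lin c (m + 2)) (m + 2) 2).eval x =
      c * (A m).eval x * (q 2).eval (x - (m + 2)) := by
    intro x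
    have := step c m 1 (chain (lin c (m + 2)) (m + 2) 1) (fun y => (q 1).eval y) e1 x
    rw [chain]
    rw [this]
    congr 1
    simp [q, Finset.prod_range_succ, Nat.factorial]
    ring
  have e3 : ∀ x : ℝ, (chain (lin c (m + 2)) (m + 2) 3).eval x =
      c * (A m).eval x * (q 3).eval (x - (m + 2)) := by
    intro x
    have := step c m 2 (chain (lin c (m + 2)) (m + 2) 2) (fun y => (q 2).eval y) e2 x
    rw [chain]
    rw [this]
    congr 1
    simp [q, Finset.prod_range_succ, Nat.factorial]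
    ring
  have e4 : ∀ x : ℝ, (chain (lin c (m + 2)) (m + 2) 4).eval x =
      c * (A m).eval x * (q 4).eval (x - (m + 2)) := by
    intro x
    have := step c m 3 (chain (lin c (m + 2)) (m + 2) 3) (fun y => (q 3).eval y) e3 x
    rw [chain]
    rw [this]
    congr 1
    simp [q, Finset.prod_range_succ, Nat.factorial]
    ring
  interval_cases k
  · exact e0 x
  · exact e1 x
  · exact e2 x
  · exact e3 x
  · exact e4 x

theorem chain_eq (c : ℝ) (m k : ℕ) (hk : k ≤ 4) :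
    chain (lin c (m + 2)) (m + 2) k = C c * A m * (q k).comp (X - C ((m : ℝ) + 2)) := by
  apply Polynomial.funext
  intro x
  rw [chain_eval c m k hk]
  simp

theorem chain_aeval (c : ℝ) (m k : ℕ) (hk : k ≤ 4) (z : ℂ) :
    aeval z (chain (lin c (m + 2)) (m + 2) k) =
      (c : ℂ) * (∏ i ∈ Finset.range m, (z - (i : ℂ))) * aeval (z - ((m : ℂ) + 2)) (q k) := by
  rw [chain_eq c m k hk]
  simp [aeval_comp, A_aeval]

theorem root2 (a b c : ℂ) (ha : a ≠ 0) : ∃ z : ℂ, a * z ^ 2 + b * z + c = 0 := by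
  obtain ⟨z, hz⟩ := IsAlgClosed.exists_root (C a * X ^ 2 + C b * X + C c)
    (by rw [degree_quadratic ha]; decide)
  exact ⟨z, by simpa [IsRoot] using hz⟩

theorem root3 (a b c d : ℂ) (ha : a ≠ 0) : ∃ z : ℂ, a * z ^ 3 + b * z ^ 2 + c * z + d = 0 := by
  obtain ⟨z, hz⟩ := IsAlgClosed.exists_root (C a * X ^ 3 + C b * X ^ 2 + C c * X + C d)
    (by rw [degree_cubic ha]; decide)
  exact ⟨z, by simpa [IsRoot] using hz⟩

theorem root4 (a b c d e : ℂ) (ha : a ≠ 0) :
    ∃ z : ℂ, a * z ^ 4 + b * z ^ 3 + c * z ^ 2 + d * z + e = 0 := by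
  have hd : (C a * X ^ 4 + (C b * X ^ 3 + C c * X ^ 2 + C d * X + C e)).degree = 4 := by
    rw [degree_add_eq_left_of_degree_lt]
    · rw [degree_C_mul_X_pow 4 ha]; rfl
    · refine lt_of_le_of_lt degree_cubic_le ?_
      rw [degree_C_mul_X_pow 4 ha]; decide
  have hd' : (C a * X ^ 4 + (C b * X ^ 3 + C c * X ^ 2 + C d * X + C e)).degree ≠ 0 := by
    rw [hd]; decide
  obtain ⟨z, hz⟩ := IsAlgClosed.exists_root _ hd'
  refine ⟨z, ?_⟩
  have : a * z ^ 4 + (b * z ^ 3 + c * z ^ 2 + d * z + e) = 0 := by simpa [IsRoot] using hz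
  rw [← this]; ring

/-- the cubic has a non real root -/
theorem cubic : ∃ z : ℂ, 17 * z ^ 3 + 85 * z ^ 2 + 223 * z + 347 = 0 ∧ z.im ≠ 0 := by
  by_contra hcon
  push Not at hcon
  obtain ⟨a, ha⟩ := root3 17 85 223 347 (by norm_num)
  have ha' := hcon a ha
  obtain ⟨b, hb⟩ := root2 17 (85 + 17 * a) (223 + 85 * a + 17 * a ^ 2) (by norm_num)
  have hb1 : 17 * b ^ 3 + 85 * b ^ 2 + 223 * b + 347 = 0 := by
    linear_combination ha + (b - a) * hb
  have hb' := hcon b hb1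
  obtain ⟨x, rfl⟩ : ∃ x : ℝ, a = x := ⟨a.re, by apply Complex.ext <;> simp [ha']⟩
  obtain ⟨y, rfl⟩ : ∃ y : ℝ, b = y := ⟨b.re, by apply Complex.ext <;> simp [hb']⟩
  have h : 17 * y ^ 2 + (85 + 17 * x) * y + (223 + 85 * x + 17 * x ^ 2) = 0 := by
    exact_mod_cast hb
  nlinarith [sq_nonneg x, sq_nonneg y, sq_nonneg (5 + x + y)]

/-- the quartic has a non real root -/
theorem quartic : ∃ z : ℂ, 31 * z ^ 4 + 62 * z ^ 3 + 128 * z ^ 2 + 610 * z + 897 = 0 ∧
    z.im ≠ 0 := by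
  by_contra hcon
  push Not at hcon
  obtain ⟨a, ha⟩ := root4 31 62 128 610 897 (by norm_num)
  have ha' := hcon a ha
  obtain ⟨b, hb⟩ := root3 31 (62 + 31 * a) (128 + 62 * a + 31 * a ^ 2)
    (610 + 128 * a + 62 * a ^ 2 + 31 * a ^ 3) (by norm_num)
  have hb1 : 31 * b ^ 4 + 62 * b ^ 3 + 128 * b ^ 2 + 610 * b + 897 = 0 := by
    linear_combination ha + (b - a) * hb
  have hb' := hcon b hb1
  obtain ⟨d, hd⟩ := root2 31 (62 + 31 * a + 31 * b)
    (128 + 62 * a + 31 * a ^ 2 + (62 + 31 * a) * b + 31 * b ^ 2) (by norm_num)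
  have hd0 : 31 * d ^ 3 + (62 + 31 * a) * d ^ 2 + (128 + 62 * a + 31 * a ^ 2) * d +
      (610 + 128 * a + 62 * a ^ 2 + 31 * a ^ 3) = 0 := by
    linear_combination hb + (d - b) * hd
  have hd1 : 31 * d ^ 4 + 62 * d ^ 3 + 128 * d ^ 2 + 610 * d + 897 = 0 := by
    linear_combination ha + (d - a) * hd0
  have hd' := hcon d hd1
  obtain ⟨x, rfl⟩ : ∃ x : ℝ, a = x := ⟨a.re, by apply Complex.ext <;> simp [ha']⟩
  obtain ⟨y, rfl⟩ : ∃ y : ℝ, b = y := ⟨b.re, by apply Complex.ext <;> simp [hb']⟩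
  obtain ⟨w, rfl⟩ : ∃ w : ℝ, d = w := ⟨d.re, by apply Complex.ext <;> simp [hd']⟩
  have h : 31 * w ^ 2 + (62 + 31 * x + 31 * y) * w +
      (128 + 62 * x + 31 * x ^ 2 + (62 + 31 * x) * y + 31 * y ^ 2) = 0 := by
    exact_mod_cast hd
  nlinarith [sq_nonneg x, sq_nonneg y, sq_nonneg w, sq_nonneg (2 + x + y + w)]

theorem stC' : ∀ (c : ℝ) (m : ℕ), c ≠ 0 →
    (∀ k, k ≤ 1 → ∀ z : ℂ, aeval z (chain (lin c (m + 2)) (m + 2) k) = 0 → ∃ a : ℤ, z = a) ∧
    ∀ k, 2 ≤ k → k ≤ 4 → ¬ RealRooted (chain (lin c (m + 2)) (m + 2) k) := by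
  intro c m hc
  have hc' : (c : ℂ) ≠ 0 := by exact_mod_cast hc
  constructor
  · intro k hk z hz
    rw [chain_aeval c m k (by omega)] at hz
    rcases mul_eq_zero.mp hz with hz | hz
    · rcases mul_eq_zero.mp hz with hz | hz
      · exact absurd hz hc'
      · obtain ⟨i, _, hi⟩ := Finset.prod_eq_zero_iff.mp hz
        exact ⟨i, by rw [sub_eq_zero] at hi; rw [hi]; simp⟩
    · interval_cases k
      · simp only [q, aeval_X] at hz
        refine ⟨(m : ℤ) + 2, ?_⟩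
        rw [sub_eq_zero] at hz
        rw [hz]; simp
      · have hz2 : (z - ((m : ℂ) + 2)) * ((z - ((m : ℂ) + 2)) - 2) * ((z - ((m : ℂ) + 2)) + 5) = 0 := by
          simpa [q, map_ofNat] using hz
        rcases mul_eq_zero.mp hz2 with h | h
        · rcases mul_eq_zero.mp h with h | h
          · exact ⟨(m : ℤ) + 2, by push_cast; linear_combination h⟩
          · exact ⟨(m : ℤ) + 4, by push_cast; linear_combination h⟩
        · exact ⟨(m : ℤ) - 3, by push_cast; linear_combination h⟩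
  · intro k hk hk4 hR
    have key : ∀ w : ℂ, w.im ≠ 0 → aeval w (q k) = 0 → False := by
      intro w hw h0
      have := hR (w + ((m : ℂ) + 2)) (by
        rw [chain_aeval c m k hk4]
        simp [h0])
      apply hw
      simpa using this
    interval_cases k
    · apply key (-3 + 2 * Complex.I)
      · simp
      · have h : (-3 + 2 * Complex.I) ^ 2 + 6 * (-3 + 2 * Complex.I) + 13 = 0 := by
          have := Complex.I_sq
          linear_combination 4 * this
        simp [q, map_ofNat, h]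
    · obtain ⟨z, hz, hi⟩ := cubic
      exact key z hi (by simp [q, map_ofNat, hz])
    · obtain ⟨z, hz, hi⟩ := quartic
      exact key z hi (by simp [q, map_ofNat, hz])

theorem stC : StC := by
  intro c j₀ hc hj
  obtain ⟨m, rfl⟩ : ∃ m, j₀ = m + 2 := ⟨j₀ - 2, by omega⟩
  exact stC' c m hc

end Pool.Agent.R569.PKC
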